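import Pool.Agent.Helper20.FP.Rank
import Pool.Agent.Helper20.FP.Fin
import Pool.Agent.Helper5.FP.Line

/-!
# The number of parameters of holomorphic curves in very general hypersurfaces

Let `k` be a subfield of the complex numbers (for instance the field of algebraic numbers) and let `X`
be a very general hypersurface over `k` of degree `d` in the complex projective space of dimension
`n + 1`: all coefficients of its equation `F` together are algebraically independent over `k`. Let `f`
be a holomorphic map from a connected open set `U` (for instance `U = ℂ`, or a disc) to `X` with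
homogeneous coordinates whose Taylor coefficients, at some point of `U`, are algebraic over a field
generated by `T` elements over `k`. For instance, the coordinates of `f` may be polynomials in a solution
of a system `Q (y) y_j' = P_j (y)` of algebraic differential equations over `k`, linear or not, of any
size and degree, the initial values of which have transcendence degree at most `T` over `k` (complex
parameters in the equations are unknown functions with derivative `0`).

(1) If the image of `f` spans a linear subspace of dimension `s` then `s * d + 1 ≤ T`.

(2) If `d ≥ 2 n` (for instance in the range `d ≥ 2 n + 2` of the conjecture of Kobayashi) and `T ≤ 2 d`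
then `f` is constant.

Part (1) is sharp for lines. In part (2) lines are excluded since `X` contains no line for `d ≥ 2 n`;
this is proved by part (1) again, since a line depends on at most `2 n` parameters.

Proof of (1): the `d`-fold products of the coordinates have at least `s d + 1` different vanishing orders
at a point; the coefficients of `F` at as many monomials, linearly independent along `f`, are determined
by the Taylor coefficients of `f` and by the other coefficients of `F`.
-/

set_option autoImplicit false

namespace Pool.Agent.Results.MP_b509a1_ag.ParametersOfCurves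

open MvPolynomial Pool.Agent.Helper20.FP

/-- Let `F` be a form of degree `d` in `n + 2` variables whose coefficients are algebraically
independent over `k`, and `f` a holomorphic curve in the hypersurface `F = 0` (homogeneous coordinates
on a connected open set `U`) which depends on `T` parameters over `k` (the Taylor coefficients of the
coordinates at a point are algebraic over a field generated by `T` elements over `k`), or is given by a
solution of a system of algebraic differential equations over `k` the initial values of which depend on
`T` parameters. (1) If `T ≤ s * d` then any `s + 1` coordinates are linearly dependent along `f`: the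
image of `f` lies in a linear subspace of dimension less than `s`. (2) If `2 * n ≤ d` and `T ≤ 2 * d`
then `f` is constant. -/
theorem result (k : Subfield ℂ) {n d : ℕ} (F : MvPolynomial (Fin (n + 2)) ℂ)
    (hF : F.IsHomogeneous d)
    (hind : AlgebraicIndependent k
      fun α : {α : Fin (n + 2) →₀ ℕ // α.degree = d} => F.coeff α.1)
    (U : Set ℂ) (hU : IsOpen U) (hUc : IsPreconnected U) (f : ℂ → Fin (n + 2) → ℂ)
    (hf : ∀ j, DifferentiableOn ℂ (fun z => f z j) U) (hX : ∀ z ∈ U, eval (f z) F = 0) (T : ℕ)
    (hT : Parameters k U (fun j z => f z j) T ∨ SolvesODE k U (fun j z => f z j) T) :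
    (∀ s : ℕ, T ≤ s * d → ∀ σ : Fin (s + 1) → Fin (n + 2),
      ∃ c : Fin (s + 1) → ℂ, c ≠ 0 ∧ ∀ z ∈ U, ∑ a, c a * f z (σ a) = 0) ∧
    (2 * n ≤ d → T ≤ 2 * d → ∀ i j, ∀ z ∈ U, ∀ z' ∈ U, f z i * f z' j = f z j * f z' i) := by
  have hf' : ∀ j, AnalyticOnNhd ℂ (fun z => f z j) U := fun j => (hf j).analyticOnNhd hU
  have hT' : Parameters k U (fun j z => f z j) T := hT.elim id fun h => h.parameters hU
  have hVG : VeryGeneral k (fun _ : Fin 1 => d) (fun _ => F) := by
    refine ⟨fun _ => hF, ?_⟩
    have hinj : Function.Injective (fun p : Idx (n + 2) (fun _ : Fin 1 => d) => p.2) := by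
      rintro ⟨i, α⟩ ⟨i', α'⟩ h
      have h1 : i = i' := Subsingleton.elim _ _
      subst h1
      exact congrArg (Sigma.mk i) h
    exact hind.comp _ hinj
  have hP : Parameters k U (coordValues (fun _ : Fin 1 => F) f) T := by
    obtain ⟨z₀, hz₀, t, ht⟩ := hT'
    refine ⟨z₀, hz₀, t, fun i m => ?_⟩
    rcases i with j | i
    · exact ht j m
    · have e1 : coordValues (fun _ : Fin 1 => F) f (Sum.inr i) =ᶠ[nhds z₀] fun _ => 0 := by
        filter_upwards [hU.mem_nhds hz₀] with z hz
        exact hX z hz
      rw [e1.iteratedDeriv_eq]
      have : iteratedDeriv m (fun _ : ℂ => (0 : ℂ)) z₀ = 0 := by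
        rcases m with _ | m
        · simp
        · rw [iteratedDeriv_const]; simp
      rw [this]
      exact isAlgebraic_zero
  have hspan : ∀ s : ℕ, T ≤ s * d → ∀ σ : Fin (s + 1) → Fin (n + 2),
      ∃ c : Fin (s + 1) → ℂ, c ≠ 0 ∧ ∀ z ∈ U, ∑ a, c a * f z (σ a) = 0 := by
    intro s hs σ
    exact span_bound hVG hU hUc hf' hP (by simpa using Nat.lt_succ_of_le hs) σ
  refine ⟨hspan, fun hd hT2 => ?_⟩
  exact Pool.Agent.Helper5.FP.line k 1 (n + 1) (fun _ => d) (fun _ => F) hVG U hUc f hf'
    (fun _ => hX) (by simp; omega) (hspan 2 hT2)

end Pool.Agent.Results.MP_b509a1_ag.ParametersOfCurves
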